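import Mathlib
import Pool.Agent.H44.EA2

open Finset

namespace Pool.Agent.Results.MP_dc81eb_lc.Lower

open Pool.Agent.H44.EA

theorem result : ∀ n : ℕ, 256 ≤ n →
    ∃ (L U : ℝ) (p : Fin n → ℝ) (x : Fin n → Bool) (A : Adv n), 0 < L ∧ L ≤ U ∧
      (∀ i, L ≤ p i ∧ p i ≤ U) ∧ Legal A L U ∧
      ENNReal.ofReal ((n : ℝ) ^ (3 / 2 : ℝ) / 3200) ≤ expT A U p x := by
  intro n hn
  have hn1 : (1 : ℝ) ≤ n := by exact_mod_cast (by omega : 1 ≤ n)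
  have hn0 : (0 : ℝ) < n := by linarith
  have hL0 : 0 < 1 / (n : ℝ) := by positivity
  have hL1 : 1 / (n : ℝ) ≤ 1 := q_le (by omega)
  have hm : 16 ≤ Nat.sqrt n := Nat.le_sqrt.2 (by omega)
  have hm2 : Nat.sqrt n ^ 2 ≤ n := Nat.sqrt_le' n
  have hm3 : n < (Nat.sqrt n + 1) ^ 2 := Nat.lt_succ_sqrt' n
  obtain ⟨A, -, hA⟩ := exists_subset_card_eq (s := (univ : Finset (Fin n))) (n := Nat.sqrt n)
    (by rw [card_univ, Fintype.card_fin]; exact Nat.sqrt_le_self n)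
  let x : Fin n → Bool := fun i => decide (i ∉ A)
  have hx : M1 x = A := by ext i; simp [M1, x]
  have hw : Wr (1 / (n : ℝ)) (ideal (1 / (n : ℝ)) x) x = ∅ := by simp [Wr]
  have hm' : (16 : ℝ) ≤ (Nat.sqrt n : ℕ) := by exact_mod_cast hm
  refine ⟨1 / n, 1, ideal (1 / (n : ℝ)) x, x, adv (1 / n), hL0, hL1, ideal_mem hL1 x,
    adv_legal hL1, le_trans (ENNReal.ofReal_le_ofReal ?_)
      (main (m := (Nat.sqrt n : ℕ)) (by omega) hL0 (by rw [mul_one_div_cancel hn0.ne']) hm'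
        (by exact_mod_cast hm2) _ x (ideal_mem hL1 x) ?_)⟩
  · have h1 : (n : ℝ) ^ (3 / 2 : ℝ) = n * √n := by
      rw [Real.sqrt_eq_rpow, show (3 / 2 : ℝ) = 1 + 1 / 2 by norm_num, Real.rpow_add hn0,
        Real.rpow_one]
    have h2 : √(n : ℝ) ≤ 2 * (Nat.sqrt n : ℕ) := by
      refine Real.sqrt_le_iff.2 ⟨by positivity, ?_⟩
      have h3 : (n : ℝ) < ((Nat.sqrt n : ℕ) + 1) ^ 2 := by exact_mod_cast hm3
      nlinarith
    rw [h1]
    nlinarith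
  · unfold G
    rw [hx, hA, hw]
    simp
    ring

end Pool.Agent.Results.MP_dc81eb_lc.Lower
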